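import Pool.Agent.W810.SYN.Stm

set_option autoImplicit false

namespace Pool.Agent.W577.SYN.FIN

open MeasureTheory AddCircle Filter Topology Pool.Agent.Results.MP_535799_an.NonSidon
  Pool.Agent.W810.SYN

noncomputable section

lemma norm_coeff_le (f : L1) (n : ℤ) : ‖coeff f n‖ ≤ ‖f‖ := by
  unfold coeff fourierCoeff
  refine (norm_integral_le_integral_norm _).trans ?_
  rw [L1.norm_eq_integral_norm]
  refine le_of_eq (integral_congr_ae (Eventually.of_forall fun x => ?_))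
  change ‖(fourier (-n) x : ℂ) • f x‖ = ‖f x‖
  rw [norm_smul, show ‖(fourier (-n) x : ℂ)‖ = 1 from by rw [fourier_apply]; exact Circle.norm_coe _,
    one_mul]

lemma ci (C : ℝ) (t : ℝ) (ht : 0 ≤ t) : C * Real.sqrt (1 + t) ≤ (1 + t) / 2 + C ^ 2 / 2 := by
  have h := Real.sq_sqrt (show 0 ≤ 1 + t by linarith)
  nlinarith [sq_nonneg (C - Real.sqrt (1 + t))]

lemma hs_ite (S : Finset ℤ) (φ : ℤ → ℝ) :
    HasSum (fun n => if n ∈ S then φ n else 0) (∑ n ∈ S, φ n) := by
  have : HasSum (fun n => if n ∈ S then φ n else 0) (∑ n ∈ S, (if n ∈ S then φ n else 0)) :=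
    hasSum_sum_of_ne_finset_zero (by intro n hn; simp [hn])
  rwa [Finset.sum_congr rfl (fun n hn => if_pos hn)] at this

lemma est (f : L1) (η G : ℤ → ℂ) (e q₁ q₂ : ℝ) (n p : ℤ) (he : 0 ≤ e)
    (hq₁ : 0 ≤ q₁) (hq₂ : 0 ≤ q₂)
    (hη : ∀ n n' : ℤ, n ≤ n' → coeff f n = coeff f n' →
      η n' - η n = ∑ m ∈ Finset.Ico n n', G m * (coeff f m - coeff f n))
    (hc : coeff f n = coeff f p) (D : ℝ) (hD : |(p:ℝ) - n| ≤ D)
    (hG : ∀ m : ℤ, |(m:ℝ) - n| ≤ D → ‖G m‖ ≤ 3 * (q₁ + q₂))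
    (hf : ∀ m : ℤ, |(m:ℝ) - n| ≤ D → ‖coeff f m‖ ≤ e) :
    ‖η n - η p‖ ≤ D * (6 * (q₁ + q₂) * e) := by
  have hD0 : 0 ≤ D := (abs_nonneg _).trans hD
  have key : ∀ a b : ℤ, a ≤ b → ((b:ℝ) - a ≤ D) → (a = n ∨ b = n) → coeff f a = coeff f n →
      coeff f b = coeff f n → ‖η b - η a‖ ≤ D * (6 * (q₁ + q₂) * e) := by
    intro a b hab hba hn ha hb
    rw [hη a b hab (ha.trans hb.symm)]
    refine (norm_sum_le _ _).trans ?_
    have h1 : ∀ m ∈ Finset.Ico a b, ‖G m * (coeff f m - coeff f a)‖ ≤ 6 * (q₁ + q₂) * e := by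
      intro m hm
      rw [Finset.mem_Ico] at hm
      have hm1 : (a:ℝ) ≤ m := by exact_mod_cast hm.1
      have hm2 : (m:ℝ) < b := by exact_mod_cast hm.2
      have hmn : |(m:ℝ) - n| ≤ D := by
        rcases hn with rfl | rfl
        · rw [abs_le]; constructor <;> linarith
        · rw [abs_le]; constructor <;> linarith
      have hnn : |(n:ℝ) - n| ≤ D := by simpa using hD0
      rw [norm_mul, ha]
      have h3 : ‖coeff f m - coeff f n‖ ≤ 2 * e :=
        (norm_sub_le _ _).trans (by linarith [hf m hmn, hf n hnn])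
      calc ‖G m‖ * ‖coeff f m - coeff f n‖ ≤ (3 * (q₁ + q₂)) * (2 * e) :=
            mul_le_mul (hG m hmn) h3 (norm_nonneg _) (by positivity)
        _ = _ := by ring
    refine (Finset.sum_le_sum h1).trans ?_
    rw [Finset.sum_const, Int.card_Ico, nsmul_eq_mul]
    have h2 : (((b - a).toNat : ℕ) : ℝ) = (b:ℝ) - a := by
      have : ((b - a).toNat : ℤ) = b - a := Int.toNat_of_nonneg (by linarith)
      have h4 := congrArg (Int.cast : ℤ → ℝ) this
      push_cast at h4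
      exact_mod_cast h4
    rw [h2]
    exact mul_le_mul_of_nonneg_right hba (by positivity)
  rcases le_total n p with h | h
  · rw [norm_sub_rev]
    exact key n p h ((le_abs_self _).trans hD) (Or.inl rfl) rfl hc.symm
  · rw [abs_sub_comm] at hD
    exact key p n h ((le_abs_self _).trans hD) (Or.inr rfl) hc.symm rfl

/-- weight -/
def q (L N : ℕ) (n : ℤ) : ℝ :=
  if n ∈ Finset.Icc (-((L * (N + 1) : ℕ) : ℤ)) (L * (N + 1) : ℕ) then 1 / ((N : ℝ) + 1) else 0

lemma q_nonneg (L N : ℕ) (n : ℤ) : 0 ≤ q L N n := by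
  unfold q; split_ifs <;> positivity

lemma q_sq (L N : ℕ) (n : ℤ) : (1 + |(n:ℝ)|) * (q L N n) ^ 2 ≤ (L + 1) * q L N n := by
  unfold q
  split_ifs with h
  · rw [Finset.mem_Icc] at h
    have h1 : |n| ≤ ((L * (N + 1) : ℕ) : ℤ) := abs_le.mpr h
    have h2 : |(n:ℝ)| ≤ (L:ℝ) * (N + 1) := by exact_mod_cast h1
    have h3 : (0:ℝ) < (N:ℝ) + 1 := by positivity
    have hN : (0:ℝ) ≤ N := by positivity
    have h4 : 1 + |(n:ℝ)| ≤ (L + 1) * (N + 1) := by nlinarith
    calc (1 + |(n:ℝ)|) * (1 / ((N:ℝ) + 1)) ^ 2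
        ≤ ((L + 1) * (N + 1)) * (1 / ((N:ℝ) + 1)) ^ 2 :=
          mul_le_mul_of_nonneg_right h4 (by positivity)
      _ = (L + 1) * (1 / ((N:ℝ) + 1)) := by field_simp
  · simp

lemma q_ge (C N : ℕ) (n m : ℤ) (h : |(m:ℝ) - n| ≤ C * Real.sqrt (1 + |(n:ℝ)|)) :
    (if |m| ≤ (N : ℤ) + 1 then 1 / ((N : ℝ) + 1) else 0) ≤ q (4 + C ^ 2) N n := by
  split_ifs with h1
  · unfold q
    rw [if_pos]
    have h2 := h.trans (ci C |(n:ℝ)| (abs_nonneg _))
    have h3 : |(n:ℝ)| - |(m:ℝ)| ≤ |(m:ℝ) - n| := by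
      rw [abs_sub_comm]; exact abs_sub_abs_le_abs_sub _ _
    have h4 : |(m:ℝ)| ≤ (N:ℝ) + 1 := by exact_mod_cast h1
    have hN : (0:ℝ) ≤ N := by positivity
    have h5 : |(n:ℝ)| ≤ ((4 + C ^ 2 : ℝ) * (N + 1)) := by nlinarith [sq_nonneg (C:ℝ), mul_nonneg hN (sq_nonneg (C:ℝ))]
    rw [Finset.mem_Icc, ← abs_le]
    exact_mod_cast h5
  · exact q_nonneg _ _ _

lemma q_sum (L N : ℕ) (F δ : ℝ) (M : ℕ) (N₀ : ℕ) (hN : N₀ ≤ N) :
    ∃ s : ℝ, HasSum (fun n : ℤ => q L N n * (if (M:ℤ) ≤ |n| then δ else F) ^ 2) s ∧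
      s ≤ (2 * L + 1) * δ ^ 2 + (2 * M + 1) * F ^ 2 / (N₀ + 1) := by
  have h0 := hs_ite (Finset.Icc (-((L * (N + 1) : ℕ) : ℤ)) (L * (N + 1) : ℕ))
    (fun n => 1 / ((N : ℝ) + 1) * (if (M:ℤ) ≤ |n| then δ else F) ^ 2)
  refine ⟨∑ n ∈ Finset.Icc (-((L * (N + 1) : ℕ) : ℤ)) (L * (N + 1) : ℕ),
    1 / ((N : ℝ) + 1) * (if (M:ℤ) ≤ |n| then δ else F) ^ 2, ?_, ?_⟩
  · convert h0 using 1
    funext n
    unfold q
    by_cases h : n ∈ Finset.Icc (-((L * (N + 1) : ℕ) : ℤ)) (L * (N + 1) : ℕ)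
    · rw [if_pos h, if_pos h]
    · rw [if_neg h, if_neg h, zero_mul]
  · have h1 : ∀ n ∈ Finset.Icc (-((L * (N + 1) : ℕ) : ℤ)) (L * (N + 1) : ℕ),
        1 / ((N : ℝ) + 1) * (if (M:ℤ) ≤ |n| then δ else F) ^ 2 ≤
        1 / ((N : ℝ) + 1) * (δ ^ 2 + if n ∈ Finset.Icc (-(M:ℤ)) M then F ^ 2 else 0) := by
      intro n _
      apply mul_le_mul_of_nonneg_left _ (by positivity)
      by_cases h : (M:ℤ) ≤ |n|
      · rw [if_pos h]
        have : (0:ℝ) ≤ if n ∈ Finset.Icc (-(M:ℤ)) M then F ^ 2 else 0 := by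
          split_ifs <;> positivity
        linarith
      · rw [if_neg h, if_pos]
        · nlinarith
        · rw [Finset.mem_Icc, ← abs_le]; exact (not_le.mp h).le
    refine (Finset.sum_le_sum h1).trans ?_
    rw [← Finset.mul_sum, Finset.sum_add_distrib, Finset.sum_const, Int.card_Icc, nsmul_eq_mul]
    have h2 : ∑ n ∈ Finset.Icc (-((L * (N + 1) : ℕ) : ℤ)) (L * (N + 1) : ℕ),
        (if n ∈ Finset.Icc (-(M:ℤ)) M then F ^ 2 else 0) ≤ (2 * M + 1) * F ^ 2 := by
      rw [← Finset.sum_filter, Finset.sum_const, nsmul_eq_mul]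
      apply mul_le_mul_of_nonneg_right _ (by positivity)
      have h3 : ((Finset.Icc (-((L * (N + 1) : ℕ) : ℤ)) (L * (N + 1) : ℕ)).filter
          (fun n => n ∈ Finset.Icc (-(M:ℤ)) M)).card ≤ (Finset.Icc (-(M:ℤ)) M).card :=
        Finset.card_le_card (fun n hn => (Finset.mem_filter.mp hn).2)
      rw [Int.card_Icc] at h3
      have h4 : ((M:ℤ) + 1 - -(M:ℤ)).toNat = 2 * M + 1 := by omega
      rw [h4] at h3
      exact_mod_cast h3
    have h5 : ((((L * (N + 1) : ℕ) : ℤ) + 1 - -((L * (N + 1) : ℕ) : ℤ)).toNat) =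
        2 * (L * (N + 1)) + 1 := by omega
    rw [h5]
    have hNN : (0:ℝ) < (N:ℝ) + 1 := by positivity
    have hN0 : (0:ℝ) < (N₀:ℝ) + 1 := by positivity
    have hNN' : (N₀:ℝ) + 1 ≤ (N:ℝ) + 1 := by
      have : (N₀:ℝ) ≤ N := by exact_mod_cast hN
      linarith
    have h6 : 1 / ((N : ℝ) + 1) * (((2 * (L * (N + 1)) + 1 : ℕ) : ℝ) * δ ^ 2) ≤
        (2 * L + 1) * δ ^ 2 := by
      push_cast
      rw [one_div, inv_mul_le_iff₀ hNN]
      nlinarith [sq_nonneg δ, mul_nonneg (show (0:ℝ) ≤ N by positivity) (sq_nonneg δ)]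
    have h7 : 1 / ((N : ℝ) + 1) * ((2 * M + 1) * F ^ 2) ≤ (2 * M + 1) * F ^ 2 / (N₀ + 1) := by
      rw [one_div, inv_mul_eq_div]
      exact div_le_div_of_nonneg_left (by positivity) hN0 hNN'
    calc _ ≤ 1 / ((N : ℝ) + 1) * (((2 * (L * (N + 1)) + 1 : ℕ) : ℝ) * δ ^ 2 +
          (2 * M + 1) * F ^ 2) := by
          apply mul_le_mul_of_nonneg_left _ (by positivity)
          linarith
      _ ≤ _ := by rw [mul_add]; linarith

lemma num1 (ε c : ℝ) (hc : 0 ≤ c) : c * (ε / (4 * (c + 1))) ^ 2 ≤ ε ^ 2 / 16 := by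
  have : c * (ε / (4 * (c + 1))) ^ 2 = (ε ^ 2 / 16) * (c / (c + 1) ^ 2) := by
    field_simp
    ring
  rw [this]
  have h2 : c / (c + 1) ^ 2 ≤ 1 := by
    rw [div_le_one (by positivity)]
    nlinarith
  calc _ ≤ (ε ^ 2 / 16) * 1 := mul_le_mul_of_nonneg_left h2 (by positivity)
    _ = _ := mul_one _

lemma num2 (ε W : ℝ) (hW : 1 ≤ W) : W * (ε / (8 * W)) ^ 2 ≤ ε ^ 2 / 64 := by
  have hW0 : 0 < W := by linarith
  have h4 : W * (ε / (8 * W)) ^ 2 = ε ^ 2 / 64 * (1 / W) := by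
    field_simp
    ring
  rw [h4]
  have h5 : 1 / W ≤ 1 := by
    rw [div_le_one hW0]; exact hW
  calc _ ≤ (ε ^ 2 / 64) * 1 := mul_le_mul_of_nonneg_left h5 (by positivity)
    _ = _ := mul_one _

lemma num3 (ε R M F N : ℝ) (hε : 0 < ε) (hN : 0 ≤ N)
    (h : 32 * R * (2 * M + 1) * F ^ 2 / ε ^ 2 ≤ N) :
    R * ((2 * M + 1) * F ^ 2 / (N + 1)) ≤ ε ^ 2 / 32 := by
  rw [div_le_iff₀ (by positivity)] at h
  rw [← mul_div_assoc, div_le_iff₀ (by positivity)]
  nlinarith [sq_nonneg ε]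

lemma num4 (ε R X Y s₁ s₂ c : ℝ) (hR : 0 ≤ R) (h1 : c ≤ ε ^ 2 / 16) (h2 : R * X ≤ ε ^ 2 / 64)
    (h3 : R * Y ≤ ε ^ 2 / 32) (hs₁ : s₁ ≤ X + Y) (hs₂ : s₂ ≤ X + Y) :
    c + (R * s₁ + R * s₂) ≤ (ε / 2) ^ 2 := by
  have h4 := mul_le_mul_of_nonneg_left hs₁ hR
  have h5 := mul_le_mul_of_nonneg_left hs₂ hR
  rw [mul_add] at h4 h5
  nlinarith [sq_nonneg ε]

open Classical in
theorem main : S_FIN := by
  intro hRL hCLS hAPX r hC A hAc hA hr B hBc hB hBi f hf
  obtain ⟨C0, hC0⟩ := hC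
  obtain ⟨C, hCC⟩ := exists_nat_ge (max C0 1)
  have hC1 : (1:ℝ) ≤ C := (le_max_right _ _).trans hCC
  have hC2 : C0 ≤ C := (le_max_left _ _).trans hCC
  have hC : ∀ n : ℤ, Set.OrdConnected {m | r n m} ∨
      ∀ m, r n m → |(m : ℝ) - n| ≤ C * Real.sqrt (1 + |(n : ℝ)|) := by
    intro n
    rcases hC0 n with h | h
    · exact Or.inl h
    · exact Or.inr fun m hm => (h m hm).trans (mul_le_mul_of_nonneg_right hC2 (Real.sqrt_nonneg _))
  have hfin_of : ∀ n : ℤ, (∀ m, r n m → |(m : ℝ) - n| ≤ C * Real.sqrt (1 + |(n : ℝ)|)) →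
      {m | r n m}.Finite := by
    intro n h
    obtain ⟨K, hK⟩ := exists_nat_ge (C * Real.sqrt (1 + |(n : ℝ)|))
    refine (Set.finite_Icc (n - K) (n + K)).subset ?_
    intro m hm
    have h1 := (h m hm).trans hK
    rw [abs_le] at h1
    constructor
    · have : (n:ℝ) - K ≤ m := by linarith [h1.1]
      exact_mod_cast this
    · have : (m:ℝ) ≤ n + K := by linarith [h1.2]
      exact_mod_cast this
  -- the goal
  rw [← SetLike.mem_coe, ← hBc.closure_eq]
  rw [Metric.mem_closure_iff]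
  intro ε hε
  -- zero class
  let Zs : Set ℤ := {n | ∀ g ∈ A, coeff g n = 0}
  let Zf : Finset ℤ := if h : Zs.Finite then h.toFinset else ∅
  let L : ℕ := 4 + C ^ 2
  let R : ℝ := 72 * (C:ℝ) ^ 2 * ((L:ℝ) + 1)
  have hR : 1 ≤ R := by
    have h1 : (1:ℝ) ≤ (C:ℝ) ^ 2 := by nlinarith
    have h2 : (1:ℝ) ≤ (L:ℝ) + 1 := by have : (0:ℝ) ≤ L := by positivity
                                      linarith
    have : (1:ℝ) ≤ (C:ℝ) ^ 2 * ((L:ℝ) + 1) := one_le_mul_of_one_le_of_one_le h1 h2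
    show 1 ≤ 72 * (C:ℝ) ^ 2 * ((L:ℝ) + 1)
    linarith
  let W : ℝ := R * (2 * L + 1)
  have hW : 1 ≤ W := by
    have : (0:ℝ) ≤ L := by positivity
    exact one_le_mul_of_one_le_of_one_le hR (by linarith)
  let δ : ℝ := ε / (8 * W)
  have hδ : 0 < δ := div_pos hε (mul_pos (by norm_num) (lt_of_lt_of_le one_pos hW))
  obtain ⟨M, hM⟩ := (hRL f).1 δ hδ
  let M' : ℕ := 2 * M + 1 + C ^ 2
  let F : ℝ := ‖f‖
  obtain ⟨N₀, hN₀⟩ := exists_nat_ge (32 * R * (2 * M' + 1) * F ^ 2 / ε ^ 2)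
  let ε₁ : ℝ := ε / (4 * (Zf.card + 1))
  have hε₁ : 0 < ε₁ := div_pos hε (mul_pos (by norm_num) (add_pos_of_nonneg_of_pos (Nat.cast_nonneg _) one_pos))
  obtain ⟨N₁, N₂, η, G, hN1, hN2, hη0, hG, hη, hnorm⟩ := hAPX f ε₁ N₀ hε₁
  let e : ℤ → ℝ := fun n => if (M':ℤ) ≤ |n| then δ else F
  have he0 : ∀ n, 0 ≤ e n := by
    intro n
    show 0 ≤ if (M':ℤ) ≤ |n| then δ else F
    split_ifs
    · exact hδ.le
    · exact norm_nonneg _
  have hef : ∀ n m : ℤ, |(m:ℝ) - n| ≤ C * Real.sqrt (1 + |(n:ℝ)|) → ‖coeff f m‖ ≤ e n := by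
    intro n m hnm
    show ‖coeff f m‖ ≤ if (M':ℤ) ≤ |n| then δ else F
    split_ifs with h
    · apply (hM m ?_).le
      have h2 := hnm.trans (ci C |(n:ℝ)| (abs_nonneg _))
      have h3 : |(n:ℝ)| - |(m:ℝ)| ≤ |(m:ℝ) - n| := by
        rw [abs_sub_comm]; exact abs_sub_abs_le_abs_sub _ _
      have h4 : ((2 * M + 1 + C ^ 2 : ℕ) : ℝ) ≤ |(n:ℝ)| := by exact_mod_cast h
      push_cast at h4
      have h5 : (M:ℝ) ≤ |(m:ℝ)| := by linarith
      exact_mod_cast h5
    · exact norm_coeff_le f m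
  -- classes
  let S : Quotient r → Finset ℤ := fun c =>
    if h : {m : ℤ | (Quotient.mk r m) = c}.Finite then h.toFinset else ∅
  let Qs : Finset (Quotient r) := ((Finset.Icc (-(N₂ : ℤ) - 1) (N₂ + 1)).image (Quotient.mk r)).filter
    (fun c => {m : ℤ | (Quotient.mk r m) = c}.Finite ∧ ∃ g ∈ A, coeff g c.out ≠ 0)
  have hSm : ∀ c ∈ Qs, ∀ n, n ∈ S c ↔ Quotient.mk r n = c := by
    intro c hc n
    have h1 := (Finset.mem_filter.mp hc).2.1
    show n ∈ (if h : {m : ℤ | (Quotient.mk r m) = c}.Finite then h.toFinset else ∅) ↔ _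
    rw [dif_pos h1]
    simp
  let h : L1 := ∑ c ∈ Qs, η c.out • idem (S c)
  have hhB : h ∈ B := by
    refine B.sum_mem fun c hc => B.smul_mem _ (hBi _ ?_ (conv_idem _))
    apply hCLS A hAc hA c.out (S c) (Finset.mem_filter.mp hc).2.2
    intro n
    rw [hSm c hc n, hr n c.out]
    constructor
    · intro h1
      exact Quotient.exact (h1.trans (Quotient.out_eq c).symm)
    · intro h1
      exact (Quotient.sound h1).trans (Quotient.out_eq c)
  have hhc : ∀ n, coeff h n = if Quotient.mk r n ∈ Qs then η (Quotient.mk r n).out else 0 := by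
    intro n
    show coeff (∑ c ∈ Qs, η c.out • idem (S c)) n = _
    rw [coeff_sum]
    have h1 : ∀ c ∈ Qs, coeff (η c.out • idem (S c)) n =
        if Quotient.mk r n = c then η c.out else 0 := by
      intro c hc
      rw [coeff_smul, coeff_idem]
      by_cases h2 : n ∈ S c
      · rw [if_pos h2, if_pos ((hSm c hc n).mp h2), mul_one]
      · rw [if_neg h2, if_neg (fun h3 => h2 ((hSm c hc n).mpr h3)), mul_zero]
    rw [Finset.sum_congr rfl h1, Finset.sum_ite_eq]
  have hrp : ∀ n, r n (Quotient.mk r n).out := fun n => Setoid.symm (Quotient.mk_out n)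
  let P : L1 := toL (poly (Finset.Icc (-(N₂ : ℤ) - 1) (N₂ + 1)) η)
  have hPc : ∀ n, coeff P n = η n := by
    intro n
    show coeff (toL (poly (Finset.Icc (-(N₂ : ℤ) - 1) (N₂ + 1)) η)) n = η n
    rw [coeff_toL_poly]
    split_ifs with h1
    · rfl
    · rw [hη0 n]
      by_contra h2
      apply h1
      rw [Finset.mem_Icc]
      have := abs_le.mp (not_lt.mp h2)
      constructor <;> linarith [this.1, this.2]
  -- the pointwise estimate
  have hpt : ∀ n, ‖coeff (P - h) n‖ ^ 2 ≤ (if n ∈ Zf then ε₁ ^ 2 else 0) +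
      (R * (q L N₁ n * (e n) ^ 2) + R * (q L N₂ n * (e n) ^ 2)) := by
    intro n
    have hz0 : (0:ℝ) ≤ if n ∈ Zf then ε₁ ^ 2 else 0 := by
      by_cases h0 : n ∈ Zf
      · rw [if_pos h0]; exact sq_nonneg _
      · rw [if_neg h0]
    have hq1 := q_nonneg L N₁ n
    have hq2 := q_nonneg L N₂ n
    have hR0 : 0 ≤ R := le_trans zero_le_one hR
    have hrest : 0 ≤ R * (q L N₁ n * (e n) ^ 2) + R * (q L N₂ n * (e n) ^ 2) :=
      add_nonneg (mul_nonneg hR0 (mul_nonneg hq1 (sq_nonneg _)))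
        (mul_nonneg hR0 (mul_nonneg hq2 (sq_nonneg _)))
    have hzero : ∀ z : ℂ, z = 0 → ‖z‖ ^ 2 ≤ (if n ∈ Zf then ε₁ ^ 2 else 0) +
      (R * (q L N₁ n * (e n) ^ 2) + R * (q L N₂ n * (e n) ^ 2)) := by
      intro z hz
      rw [hz, norm_zero]
      have : (0:ℝ) ^ 2 = 0 := by norm_num
      rw [this]; linarith
    rw [coeff_sub, hPc, hhc]
    have hsetc : ∀ k, {m : ℤ | (Quotient.mk r m) = Quotient.mk r k} = {m | r k m} := by
      intro k
      ext m
      exact ⟨fun h1 => Setoid.symm (Quotient.exact h1), fun h1 => Quotient.sound (Setoid.symm h1)⟩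
    by_cases hfin : {m | r n m}.Finite
    · by_cases hz : ∃ g ∈ A, coeff g n ≠ 0
      · -- good class
        have hcf : coeff f n = coeff f (Quotient.mk r n).out := ((hr n _).mpr (hrp n)) f hf
        have hgood : Quotient.mk r n ∈ Qs ∨ (η n = 0 ∧ η (Quotient.mk r n).out = 0) := by
          by_cases h1 : Quotient.mk r n ∈ (Finset.Icc (-(N₂ : ℤ) - 1) (N₂ + 1)).image (Quotient.mk r)
          · left
            refine Finset.mem_filter.mpr ⟨h1, ?_, ?_⟩
            · rw [hsetc]; exact hfin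
            · obtain ⟨g, hg, hgn⟩ := hz
              refine ⟨g, hg, ?_⟩
              rw [← ((hr n _).mpr (hrp n)) g hg]
              exact hgn
          · right
            have h2 : ∀ k, Quotient.mk r k = Quotient.mk r n → η k = 0 := by
              intro k hk
              apply hη0
              by_contra h3
              apply h1
              rw [Finset.mem_image]
              refine ⟨k, ?_, hk⟩
              rw [Finset.mem_Icc]
              have := abs_le.mp (not_lt.mp h3)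
              constructor <;> linarith [this.1, this.2]
            exact ⟨h2 n rfl, h2 _ (Quotient.out_eq _)⟩
        have hd : η n - (if Quotient.mk r n ∈ Qs then η (Quotient.mk r n).out else 0) =
            η n - η (Quotient.mk r n).out := by
          rcases hgood with h1 | ⟨h1, h2⟩
          · rw [if_pos h1]
          · rw [h2]; simp
        rw [hd]
        rcases hC n with hI | hII
        · apply hzero
          -- interval class
          have hint : ∀ a b : ℤ, a ≤ b → r n a → r n b → η b - η a = 0 := by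
            intro a b hab ha hb
            rw [hη a b hab (((hr a b).mpr (Setoid.trans (Setoid.symm ha) hb)) f hf)]
            apply Finset.sum_eq_zero
            intro m hm
            rw [Finset.mem_Ico] at hm
            have hm' : r n m := hI.out ha hb ⟨hm.1, hm.2.le⟩
            rw [((hr m a).mpr (Setoid.trans (Setoid.symm hm') ha)) f hf]
            simp
          rcases le_total n (Quotient.mk r n).out with h1 | h1
          · rw [← neg_sub, hint _ _ h1 (Setoid.refl n) (hrp n), neg_zero]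
          · exact hint _ _ h1 (hrp n) (Setoid.refl n)
        · have hE := est f η G (e n) (q L N₁ n) (q L N₂ n) n (Quotient.mk r n).out (he0 n) hq1 hq2
            hη hcf (C * Real.sqrt (1 + |(n:ℝ)|)) (hII _ (hrp n))
            (fun m hm => (hG m).trans (by
              have h1 := q_ge C N₁ n m hm
              have h2 := q_ge C N₂ n m hm
              linarith))
            (fun m hm => hef n m hm)
          have h1 := pow_le_pow_left₀ (norm_nonneg _) hE 2
          have h2 := q_sq L N₁ n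
          have h3 := q_sq L N₂ n
          have h4 := Real.sq_sqrt (show 0 ≤ 1 + |(n:ℝ)| by positivity)
          have h5 : (C * Real.sqrt (1 + |(n:ℝ)|) * (6 * (q L N₁ n + q L N₂ n) * e n)) ^ 2 =
              36 * (C:ℝ) ^ 2 * (e n) ^ 2 * ((1 + |(n:ℝ)|) * (q L N₁ n + q L N₂ n) ^ 2) := by
            calc _ = 36 * (C:ℝ) ^ 2 * (e n) ^ 2 * ((Real.sqrt (1 + |(n:ℝ)|)) ^ 2 *
                  (q L N₁ n + q L N₂ n) ^ 2) := by ring
              _ = _ := by rw [h4]
          have h6 : (1 + |(n:ℝ)|) * (q L N₁ n + q L N₂ n) ^ 2 ≤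
              2 * ((L + 1) * q L N₁ n + (L + 1) * q L N₂ n) := by
            have h7 : (q L N₁ n + q L N₂ n) ^ 2 ≤ 2 * (q L N₁ n ^ 2 + q L N₂ n ^ 2) := by
              nlinarith [sq_nonneg (q L N₁ n - q L N₂ n)]
            calc _ ≤ (1 + |(n:ℝ)|) * (2 * (q L N₁ n ^ 2 + q L N₂ n ^ 2)) :=
                  mul_le_mul_of_nonneg_left h7 (by positivity)
              _ = 2 * ((1 + |(n:ℝ)|) * q L N₁ n ^ 2 + (1 + |(n:ℝ)|) * q L N₂ n ^ 2) := by ring
              _ ≤ _ := by linarith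
          refine h1.trans ?_
          rw [h5]
          calc _ ≤ 36 * (C:ℝ) ^ 2 * (e n) ^ 2 *
                (2 * ((L + 1) * q L N₁ n + (L + 1) * q L N₂ n)) :=
                mul_le_mul_of_nonneg_left h6 (by positivity)
            _ = R * (q L N₁ n * (e n) ^ 2) + R * (q L N₂ n * (e n) ^ 2) := by
                show _ = 72 * (C:ℝ) ^ 2 * ((L:ℝ) + 1) * (q L N₁ n * (e n) ^ 2) +
                  72 * (C:ℝ) ^ 2 * ((L:ℝ) + 1) * (q L N₂ n * (e n) ^ 2)
                ring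
            _ ≤ _ := by linarith
      · -- zero class
        push Not at hz
        have hnQ : Quotient.mk r n ∉ Qs := by
          intro h1
          obtain ⟨g, hg, hgn⟩ := (Finset.mem_filter.mp h1).2.2
          apply hgn
          rw [← ((hr n _).mpr (hrp n)) g hg]
          exact hz g hg
        rw [if_neg hnQ, sub_zero]
        have hZfin : Zs.Finite := by
          refine hfin.subset ?_
          intro m hm
          exact (hr n m).mp fun g hg => by rw [hz g hg, hm g hg]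
        have hnZ : n ∈ Zf := by
          show n ∈ (if h : Zs.Finite then h.toFinset else ∅)
          rw [dif_pos hZfin, Set.Finite.mem_toFinset]
          exact hz
        rw [if_pos hnZ]
        have h1 : ‖η n‖ ≤ ε₁ := by
          have h2 := norm_coeff_le (f - P) n
          rw [coeff_sub, hPc, hz f hf, zero_sub, norm_neg] at h2
          exact h2.trans hnorm.le
        have := pow_le_pow_left₀ (norm_nonneg _) h1 2
        linarith
    · -- infinite class
      apply hzero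
      have hnQ : Quotient.mk r n ∉ Qs := by
        intro h1
        have h2 := (Finset.mem_filter.mp h1).2.1
        rw [hsetc] at h2
        exact hfin h2
      rw [if_neg hnQ, sub_zero]
      have hI : Set.OrdConnected {m | r n m} := by
        rcases hC n with h1 | h1
        · exact h1
        · exact absurd (hfin_of n h1) hfin
      have hint : ∀ a b : ℤ, a ≤ b → r n a → r n b → η b - η a = 0 := by
        intro a b hab ha hb
        rw [hη a b hab (((hr a b).mpr (Setoid.trans (Setoid.symm ha) hb)) f hf)]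
        apply Finset.sum_eq_zero
        intro m hm
        rw [Finset.mem_Ico] at hm
        have hm' : r n m := hI.out ha hb ⟨hm.1, hm.2.le⟩
        rw [((hr m a).mpr (Setoid.trans (Setoid.symm hm') ha)) f hf]
        simp
      obtain ⟨k, hk, hk2⟩ : ∃ k, r n k ∧ (N₂ : ℤ) + 1 < |k| := by
        by_contra hcon
        push Not at hcon
        apply hfin
        refine (Set.finite_Icc (-((N₂:ℤ) + 1)) ((N₂:ℤ) + 1)).subset ?_
        intro m hm
        exact abs_le.mp (hcon m hm)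
      have hk0 := hη0 k hk2
      rcases le_total n k with h1 | h1
      · have := hint n k h1 (Setoid.refl n) hk
        rw [hk0, zero_sub, neg_eq_zero] at this
        exact this
      · have := hint k n h1 hk (Setoid.refl n)
        rw [hk0, sub_zero] at this
        exact this
  -- summation
  obtain ⟨s₁, hs₁, hs₁'⟩ := q_sum L N₁ F δ M' N₀ hN1
  obtain ⟨s₂, hs₂, hs₂'⟩ := q_sum L N₂ F δ M' N₀ (hN1.trans hN2)
  have hsum := (hs_ite Zf (fun _ => ε₁ ^ 2)).add ((hs₁.mul_left R).add (hs₂.mul_left R))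
  have hsm : Summable (fun n => ‖coeff (P - h) n‖ ^ 2) :=
    Summable.of_nonneg_of_le (fun n => by positivity) hpt hsum.summable
  have hts : ∑' n, ‖coeff (P - h) n‖ ^ 2 ≤ (ε / 2) ^ 2 := by
    refine (hasSum_le hpt hsm.hasSum hsum).trans ?_
    rw [Finset.sum_const, nsmul_eq_mul]
    have hR0 : 0 ≤ R := le_trans zero_le_one hR
    refine num4 ε R ((2 * L + 1) * δ ^ 2) ((2 * M' + 1) * F ^ 2 / (N₀ + 1)) s₁ s₂ _ hR0
      (num1 ε Zf.card (Nat.cast_nonneg _)) ?_ (num3 ε R M' F N₀ hε (Nat.cast_nonneg _) hN₀) hs₁' hs₂'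
    have h3 : R * ((2 * L + 1) * δ ^ 2) = W * (ε / (8 * W)) ^ 2 := by
      show R * ((2 * L + 1) * δ ^ 2) = (R * (2 * L + 1)) * δ ^ 2
      ring
    rw [h3]
    exact num2 ε W hW
  have hPh := norm_le_of_coeff (P - h) hsm (ε / 2) (half_pos hε).le hts
  refine ⟨h, hhB, ?_⟩
  rw [dist_eq_norm]
  have h1 : f - h = (f - P) + (P - h) := by abel
  rw [h1]
  have h2 : ε₁ ≤ ε / 4 := by
    show ε / (4 * (Zf.card + 1)) ≤ ε / 4
    apply div_le_div_of_nonneg_left hε.le (by norm_num)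
    have : (0:ℝ) ≤ Zf.card := Nat.cast_nonneg _
    linarith
  have h3 : ‖f - P‖ < ε₁ := hnorm
  have h4 := norm_add_le (f - P) (P - h)
  linarith

end

end Pool.Agent.W577.SYN.FIN
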